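import Mathlib

/-! Finite models of the spherical triangle groups with a diagonal seven-colouring. -/

namespace Pool.Agent.P.MP_e6b138_co.Div

/-- Three involutions with `(S j S k) ^ (a i) = 1` and a colouring of the vertex orbits. -/
def Target (a : Fin 3 → ℕ) : Prop :=
  ∃ (W : Type) (_ : Fintype W) (_ : Nonempty W) (S : Fin 3 → W → W) (c : Fin 3 → W → Fin 7),
    (∀ i w, S i (S i w) = w) ∧
    (∀ i j k, i ≠ j → i ≠ k → j ≠ k → ∀ w, (S j ∘ S k)^[a i] w = w) ∧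
    (∀ k i w, i ≠ k → c k (S i w) = c k w) ∧ (∀ i j w, i ≠ j → c i w ≠ c j w) ∧
    ∀ k w, c k w ≠ c k (S k w)

theorem Target.perm {a b : Fin 3 → ℕ} (h : Target a) (π : Fin 3 → Fin 3)
    (hπ : Function.Injective π) (hb : ∀ i, a (π i) ∣ b i) : Target b := by
  obtain ⟨W, i1, i2, S, c, h1, h2, h3, h4, h5⟩ := h
  refine ⟨W, i1, i2, fun i => S (π i), fun i => c (π i), fun i => h1 _, ?_,
    fun k i w h => h3 _ _ w (hπ.ne h), fun i j w h => h4 _ _ w (hπ.ne h), fun k => h5 _⟩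
  intro i j k hij hik hjk w
  obtain ⟨t, ht⟩ := hb i
  rw [ht, Function.iterate_mul]
  exact Function.iterate_fixed (h2 _ _ _ (hπ.ne hij) (hπ.ne hik) (hπ.ne hjk) w) t

def sA : Fin 3 → List ℕ :=
  ![[2, 3, 0, 1, 5, 4, 12, 13, 14, 15, 16, 17, 6, 7, 8, 9, 10, 11, 19, 18, 22, 23, 20, 21],
    [6, 7, 8, 9, 10, 11, 0, 1, 2, 3, 4, 5, 14, 15, 12, 13, 17, 16, 20, 21, 18, 19, 23, 22],
    [1, 0, 4, 5, 2, 3, 7, 6, 10, 11, 8, 9, 18, 19, 20, 21, 22, 23, 12, 13, 14, 15, 16, 17]]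

def cA : Fin 3 → List ℕ :=
  ![[0, 0, 1, 2, 1, 2, 0, 0, 1, 2, 1, 2, 3, 4, 3, 4, 5, 5, 3, 4, 3, 4, 5, 5],
    [3, 3, 3, 3, 3, 3, 5, 5, 6, 0, 6, 0, 5, 5, 6, 0, 6, 0, 5, 5, 6, 0, 6, 0],
    [2, 6, 2, 6, 4, 4, 2, 6, 2, 6, 4, 4, 2, 6, 2, 6, 4, 4, 1, 1, 1, 1, 1, 1]]

def sB : Fin 3 → List ℕ :=
  ![[3, 5, 4, 0, 2, 1, 10, 9, 11, 7, 6, 8, 24, 26, 25, 27, 29, 28, 33, 34, 35, 30, 31, 32, 12, 14, 13, 15, 17, 16, 21, 22, 23, 18, 19, 20, 49, 48, 50, 54, 55, 56, 51, 52, 53, 57, 59, 58, 37, 36, 38, 42, 43, 44, 39, 40, 41, 45, 47, 46],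
    [13, 12, 14, 18, 19, 20, 15, 16, 17, 21, 23, 22, 1, 0, 2, 6, 7, 8, 3, 4, 5, 9, 11, 10, 39, 40, 41, 36, 37, 38, 43, 42, 44, 46, 45, 47, 27, 28, 29, 24, 25, 26, 31, 30, 32, 34, 33, 35, 51, 53, 52, 48, 50, 49, 58, 57, 59, 55, 54, 56],
    [43, 42, 44, 40, 39, 41, 37, 36, 38, 47, 46, 45, 31, 30, 32, 28, 27, 29, 25, 24, 26, 35, 34, 33, 19, 18, 20, 16, 15, 17, 13, 12, 14, 23, 22, 21, 7, 6, 8, 4, 3, 5, 1, 0, 2, 11, 10, 9, 59, 58, 57, 56, 55, 54, 53, 52, 51, 50, 49, 48]]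

def cB : Fin 3 → List ℕ :=
  ![[0, 2, 3, 1, 1, 4, 4, 3, 0, 2, 0, 3, 2, 0, 3, 4, 3, 0, 1, 1, 4, 2, 3, 0, 1, 1, 4, 3, 4, 0, 0, 2, 3, 0, 3, 2, 3, 4, 0, 1, 1, 4, 2, 0, 3, 3, 0, 2, 1, 4, 2, 1, 2, 4, 4, 2, 1, 2, 4, 1],
    [3, 0, 2, 3, 2, 0, 3, 0, 1, 0, 3, 1, 4, 1, 4, 2, 2, 2, 4, 4, 1, 1, 4, 4, 4, 4, 1, 2, 2, 2, 1, 4, 4, 4, 4, 1, 0, 3, 1, 2, 3, 0, 0, 3, 2, 1, 3, 0, 3, 0, 1, 0, 3, 2, 2, 3, 0, 1, 0, 3],
    [2, 3, 0, 2, 0, 3, 1, 4, 5, 4, 1, 5, 3, 2, 0, 1, 4, 5, 2, 0, 3, 4, 5, 1, 3, 0, 2, 1, 5, 4, 4, 5, 1, 2, 0, 3, 1, 5, 4, 3, 0, 2, 5, 4, 1, 0, 2, 3, 5, 1, 4, 5, 4, 1, 3, 0, 2, 0, 3, 2]]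

theorem t233 : Target ![2, 3, 3] :=
  ⟨Fin 24, inferInstance, inferInstance, fun i w => Fin.ofNat 24 ((sA i).getD w 0),
    fun i w => Fin.ofNat 7 ((cA i).getD w 0), by decide +kernel, by decide +kernel,
    by decide +kernel, by decide +kernel, by decide +kernel⟩

theorem t235 : Target ![2, 3, 5] :=
  ⟨Fin 60, inferInstance, inferInstance, fun i w => Fin.ofNat 60 ((sB i).getD w 0),
    fun i w => Fin.ofNat 7 ((cB i).getD w 0), by decide +kernel, by decide +kernel,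
    by decide +kernel, by decide +kernel, by decide +kernel⟩

theorem equator (m : ℕ) (hm : 2 ≤ m) : ∃ β γ : ZMod m → Fin 7, ∀ j, β j ≠ β (j + 1) ∧
    γ j ≠ γ (j + 1) ∧ β j ≠ γ j ∧ β (j + 1) ≠ γ j ∧ β j < 5 ∧ γ j < 5 := by
  rcases hm.eq_or_lt with rfl | hm
  · exact ⟨![0, 1], ![2, 3], by decide⟩
  obtain ⟨n, rfl⟩ : ∃ n, m = n + 3 := ⟨m - 3, by omega⟩
  refine ⟨fun j => if j.val = n + 2 then 2 else if j.val % 2 = 0 then 0 else 1,
    fun j => if j.val = 0 then 2 else if j.val % 2 = 0 then 3 else 4, fun j => ?_⟩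
  have h1 : j.val < n + 3 := ZMod.val_lt j
  have h2 : j.val = n + 2 ∧ (j + 1).val = 0 ∨ j.val ≠ n + 2 ∧ (j + 1).val = j.val + 1 := by
    have : Fact (1 < n + 3) := ⟨by omega⟩
    rw [ZMod.val_add, ZMod.val_one]
    by_cases h : j.val = n + 2
    · exact Or.inl ⟨h, by rw [h]; exact Nat.mod_self _⟩
    · exact Or.inr ⟨h, Nat.mod_eq_of_lt (by omega)⟩
  dsimp only
  refine ⟨?_, ?_, ?_, ?_, ?_, ?_⟩ <;> split_ifs <;> first | decide | omega

/-- The reflections of the bipyramid. -/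
def sP (m : ℕ) : Fin 3 → ZMod m × Bool × Bool → ZMod m × Bool × Bool :=
  ![fun w => (w.1, w.2.1, !w.2.2), fun w => (w.1, !w.2.1, w.2.2),
    fun w => (if w.2.1 then w.1 + 1 else w.1 - 1, !w.2.1, w.2.2)]

theorem it12 (m n : ℕ) (j : ZMod m) (e h : Bool) :
    (sP m 1 ∘ sP m 2)^[n] (j, e, h) = (if e then j + n else j - n, e, h) := by
  induction n with
  | zero => simp
  | succ n ih =>
    rw [Function.iterate_succ_apply', ih]
    cases e <;> simp [sP] <;> ring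

theorem it21 (m n : ℕ) (j : ZMod m) (e h : Bool) :
    (sP m 2 ∘ sP m 1)^[n] (j, e, h) = (if e then j - n else j + n, e, h) := by
  induction n with
  | zero => simp
  | succ n ih =>
    rw [Function.iterate_succ_apply', ih]
    cases e <;> simp [sP] <;> ring

theorem tm22 (m : ℕ) (hm : 2 ≤ m) : Target ![m, 2, 2] := by
  obtain ⟨β, γ, h⟩ := equator m hm
  have : NeZero m := ⟨by omega⟩
  refine ⟨ZMod m × Bool × Bool, inferInstance, inferInstance, sP m,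
    ![fun w => if w.2.2 then 5 else 6, fun w => if w.2.1 then β (w.1 + 1) else β w.1,
      fun w => γ w.1], ?_, ?_, ?_, ?_, ?_⟩
  · rintro i ⟨j, e, g⟩
    fin_cases i <;> cases e <;> simp [sP]
  · rintro i j k hij hik hjk ⟨x, e, g⟩
    fin_cases i <;> fin_cases j <;> fin_cases k <;> simp at hij hik hjk
    · simpa using it12 m m x e g
    · simpa using it21 m m x e g
    all_goals cases e <;> simp [sP]
  · rintro k i ⟨x, e, g⟩ hik
    fin_cases k <;> fin_cases i <;> cases e <;> simp [sP] at hik ⊢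
  · rintro i j ⟨x, e, g⟩ hij
    obtain ⟨-, -, h3, h4, h5, h6⟩ := h x
    have h7 := (h (x + 1)).2.2.2.2.1
    fin_cases i <;> fin_cases j <;> cases e <;> cases g <;> simp at hij ⊢ <;> omega
  · rintro k ⟨x, e, g⟩
    have h1 := h x
    have h2 := h (x - 1)
    rw [sub_add_cancel] at h2
    fin_cases k <;> cases e <;> cases g <;> simp [sP] <;> omega

theorem target_of_euler (a : Fin 3 → ℕ) (h2 : ∀ i, 2 ≤ a i)
    (hE : a 0 * a 1 * a 2 < a 1 * a 2 + a 0 * a 2 + a 0 * a 1) : Target a := by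
  have key : ∀ x y z : ℕ, 2 ≤ x → 2 ≤ y → 2 ≤ z → x * y * z < y * z + x * z + x * y → x ≤ y →
      y ≤ z → x = 2 ∧ (y = 2 ∨ y = 3 ∧ (z = 3 ∨ z = 4 ∨ z = 5)) := by
    intro x y z hx hy hz h hxy hyz
    have h1 : x = 2 := by
      by_contra hn
      have h3 : 3 ≤ x := by omega
      have a1 : 3 * (y * z) ≤ x * (y * z) := Nat.mul_le_mul_right _ h3
      have a2 : x * z ≤ y * z := Nat.mul_le_mul_right _ hxy
      have a3 : x * y ≤ y * z := by rw [mul_comm]; exact Nat.mul_le_mul_left _ (hxy.trans hyz)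
      rw [mul_assoc] at h
      omega
    subst h1
    refine ⟨rfl, ?_⟩
    have h3 : y < 4 := by
      by_contra hn
      have a1 : 4 * z ≤ y * z := Nat.mul_le_mul_right _ (by omega)
      rw [mul_assoc] at h
      omega
    rcases (by omega : y = 2 ∨ y = 3) with rfl | rfl
    · exact Or.inl rfl
    · exact Or.inr ⟨rfl, by omega⟩
  have main : ∀ π : Equiv.Perm (Fin 3), a (π 0) ≤ a (π 1) → a (π 1) ≤ a (π 2) →
      a (π 0) * a (π 1) * a (π 2) < a (π 1) * a (π 2) + a (π 0) * a (π 2) + a (π 0) * a (π 1) →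
      Target a := by
    intro π h01 h12 h
    have hb : Target (a ∘ π) := by
      obtain ⟨e0, e1 | ⟨e1, e2 | e2 | e2⟩⟩ := key _ _ _ (h2 _) (h2 _) (h2 _) h h01 h12
      · refine (tm22 _ (h2 (π 2))).perm ![1, 2, 0] (by decide) fun i => ?_
        fin_cases i <;> simp [e0, e1]
      · refine t233.perm id Function.injective_id fun i => ?_
        fin_cases i <;> simp [e0, e1, e2]
      · refine (tm22 3 (by norm_num)).perm ![1, 0, 2] (by decide) fun i => ?_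
        fin_cases i <;> simp [e0, e1, e2]
      · refine t235.perm id Function.injective_id fun i => ?_
        fin_cases i <;> simp [e0, e1, e2]
    exact hb.perm π.symm π.symm.injective fun i => by simp
  rcases le_total (a 0) (a 1) with h01 | h01 <;> rcases le_total (a 1) (a 2) with h12 | h12 <;>
    rcases le_total (a 0) (a 2) with h02 | h02
  · exact main 1 h01 h12 hE
  · exact main 1 h01 h12 hE
  · exact main (Equiv.swap 1 2) h02 h12 (by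
      change a 0 * a 2 * a 1 < a 2 * a 1 + a 0 * a 1 + a 0 * a 2
      linarith)
  · exact main (Equiv.swap 1 2 * Equiv.swap 0 1) h02 h01 (by
      change a 2 * a 0 * a 1 < a 0 * a 1 + a 2 * a 1 + a 2 * a 0
      linarith)
  · exact main (Equiv.swap 0 1) h01 h02 (by
      change a 1 * a 0 * a 2 < a 0 * a 2 + a 1 * a 2 + a 1 * a 0
      linarith)
  · exact main (Equiv.swap 0 1 * Equiv.swap 1 2) h12 h02 (by
      change a 1 * a 2 * a 0 < a 2 * a 0 + a 1 * a 0 + a 1 * a 2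
      linarith)
  · exact main (Equiv.swap 0 2) h12 h01 (by
      change a 2 * a 1 * a 0 < a 1 * a 0 + a 2 * a 0 + a 2 * a 1
      linarith)
  · exact main (Equiv.swap 0 2) h12 h01 (by
      change a 2 * a 1 * a 0 < a 1 * a 0 + a 2 * a 0 + a 2 * a 1
      linarith)

end Pool.Agent.P.MP_e6b138_co.Div
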