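import Pool.Agent.P.MP_e6b138_co.Bridge
import Pool.Agent.P.MP_e6b138_co.Div.Target

/-! The developing map of a spherical three-coloured triangulation. -/

namespace Pool.Agent.P.MP_e6b138_co.Div

open Finset

variable {T W : Type}

/-- The class of the edge crossed by the next step around the vertex of class `k`. -/
def nu (b : Bool) (k : Fin 3) : Fin 3 := if b then 2 + k else 1 + k

theorem nu_ne : ∀ b k, nu b k ≠ k := by decide

theorem nu_ne' : ∀ b k, nu (!b) k ≠ nu b k := by decide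

theorem nu_cases : ∀ b k i, i ≠ k → i = nu b k ∨ i = nu (!b) k := by decide

/-- One step around the vertex of class `k`. -/
def nx (M : Tri T) (k : Fin 3) (t : T) : T := M.s (nu (M.col t) k) t

theorem nx_back (M : Tri T) (k : Fin 3) (t : T) : nx M k (M.s (nu (!M.col t) k) t) = t := by
  rw [nx, M.flip, M.invol]

theorem nx_inj (M : Tri T) (k : Fin 3) : Function.Injective (nx M k) := by
  intro t u h
  have h1 : M.col t = M.col u := by
    have := congrArg M.col h
    simpa [nx, M.flip] using this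
  rw [nx, nx, h1] at h
  exact M.s_inj _ h

theorem same_iter (M : Tri T) (k : Fin 3) (t : T) (m : ℕ) : M.same k t ((nx M k)^[m] t) := by
  induction m with
  | zero => exact Tri.same.refl k t
  | succ m ih => rw [Function.iterate_succ_apply']; exact ih.tail (nu_ne _ _)

theorem iter_of_same [Finite T] {M : Tri T} {k : Fin 3} {t u : T} (h : M.same k t u) :
    ∃ m, (nx M k)^[m] t = u := by
  refine Tri.same.ind (p := fun u => ∃ m, (nx M k)^[m] t = u) ⟨0, rfl⟩ ?_ h
  rintro u i hi - ⟨m, rfl⟩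
  rcases nu_cases (M.col ((nx M k)^[m] t)) k i hi with rfl | rfl
  · exact ⟨m + 1, Function.iterate_succ_apply' _ _ _⟩
  · obtain ⟨l, hl, e⟩ := (nx_inj M k).mem_periodicPts
      (M.s (nu (!M.col ((nx M k)^[m] t)) k) ((nx M k)^[m] t))
    obtain ⟨l, rfl⟩ : ∃ l', l = l' + 1 := ⟨l - 1, by omega⟩
    refine ⟨l + m, ?_⟩
    rw [Function.iterate_add_apply, ← e, Function.iterate_succ_apply, nx_back]

/-- The product map. -/
def prod (M : Tri T) (π : T → Fin 3 → Fin 3) (hπ : ∀ i t, π (M.s i t) = π t)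
    (S : Fin 3 → W → W) (hS : ∀ i w, S i (S i w) = w) : Tri (T × W) where
  s := fun i p => (M.s i p.1, S (π p.1 i) p.2)
  col := fun p => M.col p.1
  invol := fun i p => by rw [M.invol, hπ, hS]
  flip := fun i p => M.flip i p.1

section Prod

variable {M : Tri T} {π : T → Fin 3 → Fin 3} {hπ : ∀ i t, π (M.s i t) = π t}
  {S : Fin 3 → W → W} {hS : ∀ i w, S i (S i w) = w}

theorem fst_iter (k : Fin 3) (m : ℕ) (p : T × W) :
    ((nx (prod M π hπ S hS) k)^[m] p).1 = (nx M k)^[m] p.1 := by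
  induction m with
  | zero => rfl
  | succ m ih => rw [Function.iterate_succ_apply', Function.iterate_succ_apply', ← ih]; rfl

theorem snd_iter (k : Fin 3) (m : ℕ) : ∀ (t : T) (w : W),
    ((nx (prod M π hπ S hS) k)^[2 * m] (t, w)).2 =
      (S (π t (nu (!M.col t) k)) ∘ S (π t (nu (M.col t) k)))^[m] w := by
  induction m with
  | zero => intro t w; rfl
  | succ m ih =>
    intro t w
    have e : nx (prod M π hπ S hS) k (nx (prod M π hπ S hS) k (t, w)) =
        (nx M k (nx M k t), S (π t (nu (!M.col t) k)) (S (π t (nu (M.col t) k)) w)) := by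
      simp only [nx, prod, M.flip, hπ]
    have e1 : M.col (nx M k (nx M k t)) = M.col t := M.col_ss _ _ _
    have e2 : π (nx M k (nx M k t)) = π t := by rw [nx, hπ, nx, hπ]
    rw [Nat.mul_succ, Function.iterate_succ_apply, Function.iterate_succ_apply, e, ih, e1, e2,
      Function.iterate_succ_apply]
    rfl

theorem same_fst {k : Fin 3} {p q : T × W} (h : (prod M π hπ S hS).same k p q) :
    M.same k p.1 q.1 :=
  Tri.same.ind (p := fun q : T × W => M.same k p.1 q.1) (Tri.same.refl _ _)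
    (fun _ _ hi _ ih => ih.tail hi) h

theorem lift {a t : T} (h : M.conn a t) :
    ∃ e : W → W, Function.Surjective e ∧ ∀ w, (prod M π hπ S hS).conn (a, w) (t, e w) := by
  refine Tri.conn.ind (p := fun t => ∃ e : W → W, Function.Surjective e ∧
    ∀ w, (prod M π hπ S hS).conn (a, w) (t, e w))
    ⟨id, Function.surjective_id, fun w => Tri.conn.refl _⟩ ?_ h
  rintro u i - ⟨e, he, hc⟩
  exact ⟨S (π u i) ∘ e, (Function.Involutive.surjective (hS _)).comp he,
    fun w => (hc w).trans (Tri.conn.step i (u, e w))⟩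

theorem conn_fst {p q : T × W} (h : (prod M π hπ S hS).conn p q) : M.conn p.1 q.1 :=
  Tri.conn.ind (p := fun q : T × W => M.conn p.1 q.1) (Tri.conn.refl _)
    (fun u i _ ih => ih.trans (Tri.conn.step i u.1)) h

end Prod

theorem euler_sum [Fintype T] (M : Tri T) (π : T → Fin 3 → Fin 3)
    (hinj : ∀ t, Function.Injective (π t)) (a : Fin 3 → ℕ) (h2 : ∀ i, 2 ≤ a i)
    (hdiv : ∀ k t m, (nx M k)^[m] t = t → 2 * a (π t k) ∣ m) (hE : Fintype.card T < 2 * M.nv) :
    a 0 * a 1 * a 2 < a 1 * a 2 + a 0 * a 2 + a 0 * a 1 := by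
  classical
  have hdeg : ∀ k t, 2 * a (π t k) ≤ M.deg k t := by
    intro k t
    have hp := (nx_inj M k).mem_periodicPts t
    have h1 := Nat.le_of_dvd (Function.minimalPeriod_pos_of_mem_periodicPts hp)
      (hdiv k t _ (Function.iterate_minimalPeriod (f := nx M k) (x := t)))
    refine h1.trans ?_
    rw [← Finset.card_range (Function.minimalPeriod (nx M k) t)]
    unfold Tri.deg
    refine Finset.card_le_card_of_injOn (fun m => (nx M k)^[m] t) (fun m _ => ?_) ?_
    · simpa using same_iter M k t m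
    · simpa using Function.iterate_injOn_Iio_minimalPeriod (f := nx M k) (x := t)
  have ha : ∀ i, (0 : ℚ) < a i := fun i => by exact_mod_cast (by have := h2 i; omega : 0 < a i)
  have h1 : (M.nv : ℚ) ≤ Fintype.card T * ∑ i, 1 / (2 * a i : ℚ) := by
    unfold Tri.nv
    simp only [Nat.cast_sum, ← M.sum_inv_deg]
    rw [Finset.sum_comm, ← nsmul_eq_mul, ← Finset.card_univ]
    refine Finset.sum_le_card_nsmul _ _ _ fun t _ => ?_
    rw [← (Finite.injective_iff_bijective.1 (hinj t)).sum_comp fun i => 1 / (2 * a i : ℚ)]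
    refine Finset.sum_le_sum fun k _ => one_div_le_one_div_of_le (by linarith [ha (π t k)]) ?_
    exact_mod_cast hdeg k t
  have h3 : (Fintype.card T : ℚ) < 2 * M.nv := by exact_mod_cast hE
  have h4 : (1 : ℚ) < 2 * ∑ i, 1 / (2 * a i : ℚ) := by
    by_contra hn
    have := mul_le_mul_of_nonneg_left (not_lt.1 hn) (Nat.cast_nonneg (α := ℚ) (Fintype.card T))
    linarith
  rw [Fin.sum_univ_three] at h4
  have h5 := mul_lt_mul_of_pos_left h4 (mul_pos (mul_pos (ha 0) (ha 1)) (ha 2))
  have e : (a 0 : ℚ) * a 1 * a 2 * (2 * (1 / (2 * a 0) + 1 / (2 * a 1) + 1 / (2 * a 2))) =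
      a 1 * a 2 + a 0 * a 2 + a 0 * a 1 := by
    have := (ha 0).ne'
    have := (ha 1).ne'
    have := (ha 2).ne'
    field_simp
  rw [e, mul_one] at h5
  exact_mod_cast h5

theorem develop [Fintype T] (M : Tri T) (π : T → Fin 3 → Fin 3) (hπ : ∀ i t, π (M.s i t) = π t)
    (hinj : ∀ t, Function.Injective (π t)) (a : Fin 3 → ℕ)
    (hdiv : ∀ k t m, (nx M k)^[m] t = t → 2 * a (π t k) ∣ m) (hT : Target a) (R : Finset T)
    (hR : ∀ t, ∃ r ∈ R, M.conn r t) (hE : Fintype.card T + 4 * R.card ≤ 2 * M.nv) :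
    ∃ c, M.Good 7 c := by
  classical
  obtain ⟨W, _, ⟨w₀⟩, S, c, hS, h2, h3, h4, h5⟩ := hT
  let P := prod M π hπ S hS
  have hmono : ∀ k t w w', P.same k (t, w) (t, w') → w = w' := by
    intro k t w w' h
    obtain ⟨m, hm⟩ := iter_of_same h
    have e1 := fst_iter (hπ := hπ) (hS := hS) k m (t, w)
    rw [hm] at e1
    obtain ⟨l, rfl⟩ := hdiv k t m e1.symm
    have e2 := snd_iter (hπ := hπ) (hS := hS) k (a (π t k) * l) t w
    rw [← mul_assoc, hm, Function.iterate_mul] at e2
    rw [← Function.iterate_fixed (h2 _ _ _ ((hinj t).ne (nu_ne _ k).symm)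
      ((hinj t).ne (nu_ne _ k).symm) ((hinj t).ne (nu_ne' (M.col t) k)) w) l]
    exact e2.symm
  have hnv : M.nv * Fintype.card W ≤ P.nv := by
    unfold Tri.nv
    rw [Finset.sum_mul]
    refine Finset.sum_le_sum fun k _ => ?_
    rw [← Nat.card_eq_fintype_card, ← Nat.card_prod]
    refine Nat.card_le_card_of_injective
      (fun q => Quotient.mk (P.vs k) (q.1.out, q.2)) ?_
    rintro ⟨q, w⟩ ⟨q', w'⟩ h
    have h6 : P.same k (q.out, w) (q'.out, w') := Quotient.exact h
    have h7 : q = q' := by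
      rw [← q.out_eq, ← q'.out_eq]
      exact Quotient.sound (same_fst h6)
    subst h7
    rw [hmono k _ _ _ h6]
  have hsep : ∀ r ∈ R, ∀ r' ∈ R, ∀ w w', P.conn (r, w) (r', w') → (r, w) = (r', w') := by
    intro r hr r' hr' w w' h
    by_contra hne
    have hmem : (r', w') ∈ R ×ˢ (univ : Finset W) := by simp [hr']
    have h6 := (Tri.euler_le (M := P) ((R ×ˢ univ).erase (r', w')) ?_).1
    · have h7 := Finset.card_erase_add_one hmem
      rw [Finset.card_product, Finset.card_univ] at h7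
      rw [Fintype.card_prod] at h6
      have h8 := Nat.mul_le_mul_right (Fintype.card W) hE
      rw [add_mul, mul_assoc, mul_assoc] at h8
      omega
    · rintro ⟨t, v⟩
      obtain ⟨u, hu, hc⟩ := hR t
      obtain ⟨e, he, hl⟩ := lift (hπ := hπ) (hS := hS) hc
      obtain ⟨v, rfl⟩ := he v
      by_cases h6 : (u, v) = (r', w')
      · exact ⟨(r, w), Finset.mem_erase.2 ⟨hne, by simp [hr]⟩, h.trans (h6 ▸ hl v)⟩
      · exact ⟨(u, v), Finset.mem_erase.2 ⟨h6, by simp [hu]⟩, hl v⟩
  have huq : ∀ t w w', P.conn (t, w) (t, w') → w = w' := by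
    intro t w w' h
    obtain ⟨u, hu, hc⟩ := hR t
    obtain ⟨e, he, hl⟩ := lift (hπ := hπ) (hS := hS) hc
    obtain ⟨v, rfl⟩ := he w
    obtain ⟨v', rfl⟩ := he w'
    have := hsep u hu u hu v v' ((hl v).trans (h.trans (hl v').symm))
    exact congrArg e (Prod.ext_iff.1 this).2
  have hex : ∀ t, ∃ w, ∃ r ∈ R, P.conn (r, w₀) (t, w) := by
    intro t
    obtain ⟨u, hu, hc⟩ := hR t
    obtain ⟨e, -, hl⟩ := lift (hπ := hπ) (hS := hS) hc
    exact ⟨e w₀, u, hu, hl w₀⟩
  choose f hf using hex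
  have hstep : ∀ i t, f (M.s i t) = S (π t i) (f t) := by
    intro i t
    obtain ⟨r, hr, h6⟩ := hf t
    obtain ⟨r', hr', h7⟩ := hf (M.s i t)
    have h8 : P.conn (r, w₀) (M.s i t, S (π t i) (f t)) := h6.trans (Tri.conn.step i (t, f t))
    obtain ⟨e, -, hl⟩ := lift (hπ := hπ) (hS := hS)
      ((conn_fst h8).trans (conn_fst h7).symm)
    have h9 : r = r' := (Prod.ext_iff.1 (hsep r hr r' hr' _ _ (hl w₀))).1
    subst h9
    exact huq _ _ _ (h7.symm.trans h8)
  refine ⟨fun k t => c (π t k) (f t), fun k i t hi => ?_, fun i j t h => h4 _ _ _ ((hinj t).ne h),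
    fun k t _ => ?_⟩
  · rw [hπ, hstep, h3 _ _ _ ((hinj t).ne hi)]
  · rw [hπ, hstep]
    exact h5 _ _

theorem op_nx (D : Dart T) (k : Fin 3) (t : T) :
    D.op k (nx D.tri k t) = (D.σ * D.α) (D.op k t) := by
  have n1 : (-1 : Fin 3) = 2 := rfl
  have n2 : (-2 : Fin 3) = 1 := rfl
  have h0 : ∀ t, D.op 0 (D.tri.s (nu (D.side t) 0) t) = (D.σ * D.α) (D.op 0 t) := by
    intro t
    cases h : D.side t <;>
      simp [nu, Dart.op_apply, Dart.tri_s, Dart.r, h, n1, n2, D.sσ, D.sα, D.h3]
  have e : ∀ b k, nu b k - k = nu b 0 := by decide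
  have h1 := h0 (D.r k t)
  rw [D.side_r] at h1
  rw [D.op_eq, nx, D.r_s, e, D.op_eq k t]
  exact h1

open Equiv Equiv.Perm in
theorem dart_colour [Fintype T] (D : Dart T)
    (hc : ∀ x y, ∃ g ∈ Subgroup.closure ({D.σ, D.α} : Set (Perm T)), g x = y)
    (hE : 6 * Nat.card (Quotient (SameCycle.setoid (D.σ * D.α))) = Fintype.card T + 12)
    (κ : T → Fin 3) (a : Fin 3 → ℕ) (h1 : ∀ x, κ ((D.σ * D.α) x) = κ x)
    (h2 : ∀ x, κ (D.σ x) ≠ κ x) (ha : ∀ i, 2 ≤ a i)
    (hd : ∀ x, 2 * a (κ x) ∣ Function.minimalPeriod (D.σ * D.α : Perm T) x) :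
    ∃ c, D.tri.Good 7 c := by
  classical
  have hv : 2 * D.tri.nv = Fintype.card T + 12 := by
    have : ∀ k, Nat.card (Quotient (D.tri.vs k)) =
        Nat.card (Quotient (SameCycle.setoid (D.σ * D.α))) := fun k =>
      Nat.card_congr (Quotient.congr (D.op k) (D.same_iff k))
    unfold Tri.nv
    rw [Fin.sum_univ_three, this, this, this]
    omega
  obtain ⟨x0⟩ : Nonempty T := by
    by_contra hn
    rw [not_nonempty_iff] at hn
    rw [Fintype.card_eq_zero, Nat.card_of_isEmpty] at hE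
    omega
  have hinj : ∀ t, Function.Injective fun k => κ (D.op k t) := by
    intro t k j h
    have a1 := h2 t
    have a2 := h2 (D.σ t)
    have a3 := h2 (D.σ (D.σ t))
    rw [D.h3] at a3
    cases hs : D.side t <;> fin_cases k <;> fin_cases j <;>
      simp [Dart.op_apply, Dart.r, D.h3, hs] at h ⊢ <;> omega
  have hne : ∀ i k t, i ≠ k → κ (D.op k (D.tri.s i t)) = κ (D.op k t) := by
    intro i k t hi
    rcases nu_cases (D.tri.col t) k i hi with rfl | rfl
    · exact (congrArg κ (op_nx D k t)).trans (h1 _)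
    · have := op_nx D k (D.tri.s (nu (!D.tri.col t) k) t)
      rw [nx_back] at this
      rw [this, h1]
  have hπ : ∀ i t, (fun k => κ (D.op k (D.tri.s i t))) = fun k => κ (D.op k t) := by
    intro i t
    have key : ∀ (f g : Fin 3 → Fin 3) (i : Fin 3), Function.Injective f → Function.Injective g →
        (∀ k, i ≠ k → f k = g k) → f = g := by decide
    exact key _ _ i (hinj _) (hinj _) fun k hk => hne i k t hk
  have hdiv : ∀ k t m, (nx D.tri k)^[m] t = t → 2 * a (κ (D.op k t)) ∣ m := by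
    intro k t m hm
    refine (hd _).trans (Function.IsPeriodicPt.minimalPeriod_dvd ?_)
    have : Function.Semiconj (D.op k) (nx D.tri k) (D.σ * D.α : Perm T) := op_nx D k
    have h3 := this.iterate_right m t
    rw [hm] at h3
    exact h3.symm
  refine develop D.tri (fun t k => κ (D.op k t)) hπ hinj a hdiv
    (target_of_euler a ha (euler_sum D.tri _ hinj a ha hdiv (by omega)))
    (Finset.univ.image fun k => D.r k x0) (fun t => ?_) ?_
  · obtain ⟨k, hk⟩ := D.cover hc x0 t
    exact ⟨_, Finset.mem_image_of_mem _ (Finset.mem_univ (-k)),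
      by simpa only [D.r_neg] using D.conn_r (-k) hk⟩
  · have := Finset.card_image_le (s := (Finset.univ : Finset (Fin 3))) (f := fun k => D.r k x0)
    rw [Finset.card_univ, Fintype.card_fin] at this
    omega

end Pool.Agent.P.MP_e6b138_co.Div
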